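import Pool.Agent.H660.UT.Sim
import Pool.Graph.R_pool_sql_team_seeded_843ab51a.H64.FR.Final

set_option autoImplicit false

/-! # Reductions of the clique problem to satisfiability of short formulas, computed with unknown
inputs (helper660) -/

open scoped Classical
open Finset Filter

namespace Pool.Agent.H660.UM

open Pool.Agent.H698.HF
open Pool.Agent.H520R2.NM (Circuit Wire)
open Pool.Agent.H660.UT
open Pool.Agent.H679R2.M1 (Clause Sat)

/-- one circuit for all output gates and all upper sets -/
theorem exists_circuits {ι E D : Type} [PartialOrder D] {H : ℕ} (hD : Height D H)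
    (tr : (ι → Bool) → E → Prop)
    (htr : ∀ e, (∃ i, ∀ x, tr x e ↔ x i = true) ∨ ∀ x, ¬ tr x e)
    {l : List (Know E → D)} (hl : Circ l) :
    ∃ (N : ℕ) (C : Circuit ι N), C.fanins = [] ∧ C.size ≤ 2 * H * (H + 1) * l.length ∧
      ∀ out ∈ l, ∀ A : Set D, IsUpperSet A → ∃ w : Wire ι N,
        ∀ x, w.eval x (C.vals x) = true ↔ out (truths (tr x)) ∈ A := by
  choose f hf1 hf2 using hD
  obtain ⟨T, hT1, hT2⟩ := sim hf1 hf2 tr htr hl
  obtain ⟨N, C, h1, h2, h3⟩ := comp_const hT1 false
  refine ⟨N, C, h1, h2, fun out hout A hA => ?_⟩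
  have key : ∃ F : (ι → Bool) → Bool, F ∈ insert (fun _ => false) T ∧
      ∀ x, F x = true ↔ out (truths (tr x)) ∈ A := by
    by_cases hex : ∃ j, ∃ u ≤ out (truths fun _ => True), u ∈ A ∧
        f (out (truths fun _ => True)) u = j
    · obtain ⟨u, hu1, hu2, hu3⟩ := Nat.find_spec hex
      refine ⟨_, Set.mem_insert_of_mem _ (hT2 out hout (Nat.find hex)), fun x => ?_⟩
      have hthr : thr (rk f tr out) (Nat.find hex) x = true ↔ Nat.find hex ≤
          f (out (truths fun _ => True)) (out (truths (tr x))) := decide_eq_true_iff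
      rw [hthr]
      constructor
      · intro h
        rw [← hu3] at h
        exact hA ((hf2 _ _ hu1 _ (top_le tr hl hout x)).2 h) hu2
      · intro h
        exact Nat.find_min' hex ⟨_, top_le tr hl hout x, h, rfl⟩
    · refine ⟨_, Set.mem_insert _ _, fun x => ?_⟩
      constructor
      · intro h; exact absurd h (by simp)
      · intro h
        exact absurd ⟨_, _, top_le tr hl hout x, h, rfl⟩ hex
  obtain ⟨F, hF, hF2⟩ := key
  obtain ⟨w, hw⟩ := h3 F hF
  exact ⟨w, fun x => by rw [hw, hF2]⟩

/-- A truth-table reduction from a problem on graphs with the vertex set `Fin n` to the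
satisfiability problem for formulas with at most `d` literals in each clause over `v` variables,
computed by a circuit `l` with unknown inputs over the order `D`. For each of the `q` formulas and
each possible clause `c` the gate `drop i c` tells by a value in the upper set `acc i c` that the
clause is dropped from the `i`-th formula: this formula consists of all clauses which are not known
to be dropped. The answer is a nondecreasing function `ev` of the `q` answers to the questions
whether these formulas are satisfiable. A many-one reduction is the case in which `q = 1` and `ev` is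
the identity. -/
structure KReduction (n v d q : ℕ) (D : Type) [PartialOrder D] where
  /-- the circuit -/
  l : List (Know (Sym2 (Fin n)) → D)
  circ : Circ l
  /-- the output gates -/
  drop : Fin q → Clause v d → Know (Sym2 (Fin n)) → D
  drop_mem : ∀ i c, drop i c ∈ l
  /-- the values which mean that the clause is dropped -/
  acc : Fin q → Clause v d → Set D
  acc_upper : ∀ i c, IsUpperSet (acc i c)
  /-- the evaluation of the `q` answers -/
  ev : (Fin q → Bool) → Bool
  ev_mono : Monotone ev

/-- the answer of the reduction if `P` is known about the graph -/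
noncomputable def KReduction.answer {n v d q : ℕ} {D : Type} [PartialOrder D]
    (R : KReduction n v d q D) (P : Know (Sym2 (Fin n))) : Bool :=
  R.ev fun i => decide (Sat fun c => decide (R.drop i c P ∉ R.acc i c))

/-- The random reduction `A` (a uniformly chosen member of a finite family) distinguishes graphs
with a clique of `s` vertices from graphs without clique of `k` vertices: it answers yes with
probability at least `4 / 5` if the graph has a clique of `s` vertices and its edges are known (for
all other pairs it is unknown whether they are edges), and with probability at most `1 / 4` if the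
graph has no clique of `k` vertices and everything is known. -/
def Distinguishes {n : ℕ} (s k : ℕ) {Ω : Type} (A : Ω → Know (Sym2 (Fin n)) → Bool) : Prop :=
  ∀ G : SimpleGraph (Fin n),
    (¬ G.CliqueFree s →
      (4 / 5 : ℝ) ≤ (Nat.card {r : Ω // A r (truths (· ∈ G.edgeSet)) = true} : ℝ) / Nat.card Ω) ∧
    (G.CliqueFree k →
      (Nat.card {r : Ω // A r (full (· ∈ G.edgeSet)) = true} : ℝ) / Nat.card Ω ≤ 1 / 4)

theorem KReduction.answer_mono {n v d q : ℕ} {D : Type} [PartialOrder D]
    (R : KReduction n v d q D) {P Q : Know (Sym2 (Fin n))} (h : Le P Q)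
    (hP : R.answer P = true) : R.answer Q = true := by
  have h2 : (fun i => decide (Sat fun c => decide (R.drop i c P ∉ R.acc i c))) ≤
      fun i => decide (Sat fun c => decide (R.drop i c Q ∉ R.acc i c)) := by
    intro i
    rw [Bool.le_iff_imp]
    intro hs
    rw [decide_eq_true_eq] at hs ⊢
    obtain ⟨a, ha⟩ := hs
    refine ⟨a, fun c hc => ha c ?_⟩
    rw [decide_eq_true_eq] at hc ⊢
    exact fun hm => hc (R.acc_upper i c (R.circ.mono _ (R.drop_mem i c) _ _ h) hm)
  have h3 := R.ev_mono h2
  rw [Bool.le_iff_imp] at h3
  exact h3 hP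

theorem no_reduction (f g s : ℕ → ℕ) (hs : ∀ k, k ≤ s k) (c d : ℕ) (γ : ℝ) (hγ0 : 0 ≤ γ)
    (hγ : γ < 2) :
    ∀ᶠ k : ℕ in atTop, ∀ᶠ n : ℕ in atTop,
      ∀ (Ω : Type) [Fintype Ω] [Nonempty Ω] (D : Ω → Type) [∀ r, PartialOrder (D r)]
        (H v q : Ω → ℕ), (∀ r, Height (D r) (H r)) →
        ∀ R : ∀ r, KReduction n (v r) d (q r) (D r),
        (∀ r, v r ≤ g k * (Nat.log 2 (f k * n ^ c) + 1)) →
        (∀ r, ((q r + 1 : ℕ) : ℝ) ≤ (n : ℝ) ^ γ) →
        (∀ r, 2 * H r * (H r + 1) * (R r).l.length ≤ f k * n ^ c) →
          ¬ Distinguishes (s k) k fun r P => (R r).answer P := by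
  filter_upwards [Pool.Agent.H64.FR.no_tolerant f g s hs c d γ hγ0 hγ] with k hk
  obtain ⟨E, hE⟩ := hk
  filter_upwards [hE, eventually_ge_atTop 1] with n hn hn1
  intro Ω _ _ D _ H v q hH R hv hq hsz hdist
  have hC := fun r => exists_circuits (hH r)
    (fun (y : Sym2 (Fin n) × Bool → Bool) (e : Sym2 (Fin n)) =>
      e ∈ (Pool.Agent.H64.FR.graph fun e => y (e, true)).edgeSet)
    (by
      intro e
      by_cases he : e.IsDiag
      · refine Or.inr fun y hy => ?_
        exact SimpleGraph.not_isDiag_of_mem_edgeSet _ hy he
      · refine Or.inl ⟨(e, true), fun y => ?_⟩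
        simp only [SimpleGraph.edgeSet_fromEdgeSet, Set.mem_diff, Set.mem_setOf_eq]
        simp [he]) (R r).circ
  choose N C g1 g2 g3 using hC
  choose w hw using fun r i c => g3 r _ ((R r).drop_mem i c) _ ((R r).acc_upper i c)
  let R' : ∀ r, Pool.Agent.H64.FR.LitReduction n (v r) d (q r) (N r) := fun r =>
    { C := C r
      plain := g1 r
      drop := w r
      ev := (R r).ev
      ev_mono := (R r).ev_mono }
  have hans : ∀ r (x : Sym2 (Fin n) → Bool) (Z : Set (Sym2 (Fin n))),
      (R' r).answer (Pool.Agent.H64.FN.literals x Z) =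
        (R r).answer (truths (· ∈ (Pool.Agent.H64.FR.graph x).edgeSet)) := by
    intro r x Z
    have e1 : (fun e => Pool.Agent.H64.FN.literals x Z (e, true)) = x := by
      funext e
      simp [Pool.Agent.H64.FN.literals]
    show (R r).ev _ = (R r).ev _
    congr 1
    funext i
    have e2 : (fun c => !(w r i c).eval (Pool.Agent.H64.FN.literals x Z)
        ((C r).vals (Pool.Agent.H64.FN.literals x Z))) = fun c => decide ((R r).drop i c
          (truths (· ∈ (Pool.Agent.H64.FR.graph x).edgeSet)) ∉ (R r).acc i c) := by
      funext c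
      have h1 := hw r i c (Pool.Agent.H64.FN.literals x Z)
      rw [e1] at h1
      rw [Bool.eq_iff_iff, decide_eq_true_eq, ← h1]
      simp
    show decide (Sat fun c => !(w r i c).eval (Pool.Agent.H64.FN.literals x Z)
        ((C r).vals (Pool.Agent.H64.FN.literals x Z))) = _
    rw [e2]
  refine hn 1 le_rfl (by rw [one_pow]; exact hn1) Ω v q N R' hv hq
    (fun r => (g2 r).trans (hsz r)) ⟨fun x hx => ?_, fun x hx => ?_⟩
  · have h1 := (hdist (Pool.Agent.H64.FR.graph x)).1 hx
    have e2 : Nat.card {v : Ω × (Sym2 (Fin n) → Fin 1) //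
        (R' v.1).answer (Pool.Agent.H64.FN.literals x {e | (v.2 e : ℕ) = 0}) = true} =
        Nat.card {r : Ω //
          (R r).answer (truths (· ∈ (Pool.Agent.H64.FR.graph x).edgeSet)) = true} := by
      refine Nat.card_congr ⟨fun v => ⟨v.1.1, by rw [← hans]; exact v.2⟩,
        fun r => ⟨(r.1, fun _ => 0), by rw [hans]; exact r.2⟩, fun v => ?_, fun r => rfl⟩
      apply Subtype.ext
      apply Prod.ext
      · rfl
      · exact Subsingleton.elim _ _
    have e3 : Nat.card (Ω × (Sym2 (Fin n) → Fin 1)) = Nat.card Ω := by
      rw [Nat.card_prod]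
      simp
    rw [e2, e3]
    exact h1
  · have h1 := (hdist (Pool.Agent.H64.FR.graph x)).2 hx
    refine le_trans ?_ h1
    refine div_le_div_of_nonneg_right ?_ (Nat.cast_nonneg _)
    have h2 : Nat.card {r : Ω // (R' r).answer (Pool.Agent.H64.FN.literals x ∅) = true} ≤
        Nat.card {r : Ω //
          (R r).answer (full (· ∈ (Pool.Agent.H64.FR.graph x).edgeSet)) = true} := by
      refine Nat.card_le_card_of_injective (fun r => ⟨r.1, ?_⟩) ?_
      · have h3 := r.2
        rw [hans] at h3
        exact (R r.1).answer_mono (truths_le_full _) h3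
      · intro r r' h
        have := congrArg Subtype.val h
        exact Subtype.ext this
    exact_mod_cast h2

end Pool.Agent.H660.UM
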