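import Pool.Agent.H660.UM.Red
import Pool.Agent.H660.UT.Up

set_option autoImplicit false

/-! # Brute force for cliques with three-valued circuits (helper660) -/

open scoped Classical
open Finset

namespace Pool.Agent.H660.UM

open Pool.Agent.H698.HF
open Flat (unknown known)
open Pool.Agent.H660.UT (kor kand kor_true kor_false kand_true kand_false kor_mono kand_mono inp
  inp_eq exists_inputs)
open Pool.Agent.H679R2.M1 (Clause Sat)

section dnf

variable {E : Type}

/-- the conjunction of the bits in a list -/
def conj : List E → Know E → Flat Bool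
  | [], _ => known true
  | e :: es, P => kand (inp (P e)) (conj es P)

/-- the disjunction of the conjunctions -/
def disj : List (List E) → Know E → Flat Bool
  | [], _ => known false
  | t :: ts, P => kor (conj t P) (disj ts P)

theorem conj_true (P : Know E) : ∀ es, conj es P = known true ↔ ∀ e ∈ es, P e = some true
  | [] => by simp [conj]
  | e :: es => by
    unfold conj
    rw [kand_true, conj_true P es, inp_eq]
    simp

theorem conj_false (P : Know E) : ∀ es, conj es P = known false ↔ ∃ e ∈ es, P e = some false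
  | [] => by simp [conj]
  | e :: es => by
    unfold conj
    rw [kand_false, conj_false P es, inp_eq]
    simp

theorem disj_true (P : Know E) : ∀ ts, disj ts P = known true ↔ ∃ t ∈ ts, conj t P = known true
  | [] => by simp [disj]
  | t :: ts => by
    unfold disj
    rw [kor_true, disj_true P ts]
    simp

theorem exists_conj {l : List (Know E → Flat Bool)} (hl : Circ l)
    (h0 : (fun _ : Know E => known true) ∈ l)
    (h1 : ∀ e, (fun P : Know E => inp (P e)) ∈ l) (es : List E) :
    ∃ l', Circ l' ∧ (∀ g ∈ l, g ∈ l') ∧ l'.length ≤ l.length + es.length ∧ conj es ∈ l' := by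
  induction es with
  | nil => exact ⟨l, hl, fun g hg => hg, by simp, h0⟩
  | cons e es ih =>
    obtain ⟨l', g1, g2, g3, g4⟩ := ih
    have k1 := Circ.gate g1 kand_mono (g2 _ (h1 e)) g4
    refine ⟨_, k1, fun g hg => List.mem_cons_of_mem _ (g2 g hg), ?_, List.mem_cons_self⟩
    simp only [List.length_cons]; omega

theorem exists_disj {l : List (Know E → Flat Bool)} (hl : Circ l)
    (h0 : (fun _ : Know E => known true) ∈ l) (h00 : (fun _ : Know E => known false) ∈ l)
    (h1 : ∀ e, (fun P : Know E => inp (P e)) ∈ l) {M : ℕ} (ts : List (List E))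
    (hts : ∀ t ∈ ts, t.length ≤ M) :
    ∃ l', Circ l' ∧ (∀ g ∈ l, g ∈ l') ∧ l'.length ≤ l.length + ts.length * (M + 1) ∧
      disj ts ∈ l' := by
  induction ts with
  | nil => exact ⟨l, hl, fun g hg => hg, by simp, h00⟩
  | cons t ts ih =>
    obtain ⟨l', g1, g2, g3, g4⟩ := ih fun t ht => hts t (List.mem_cons_of_mem _ ht)
    obtain ⟨l'', k1, k2, k3, k4⟩ := exists_conj g1 (g2 _ h0) (fun e => g2 _ (h1 e)) t
    have k5 := Circ.gate k1 kor_mono k4 (k2 _ g4)
    refine ⟨_, k5, fun g hg => List.mem_cons_of_mem _ (k2 _ (g2 g hg)), ?_, List.mem_cons_self⟩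
    have := hts t List.mem_cons_self
    simp only [List.length_cons]
    have e : (ts.length + 1) * (M + 1) = ts.length * (M + 1) + (M + 1) := by ring
    omega

end dnf

variable {n : ℕ}

/-- the pairs of different elements of `S` -/
noncomputable def prs (S : Finset (Fin n)) : List (Sym2 (Fin n)) :=
  (S.sym2.filter fun e => ¬ e.IsDiag).toList

theorem clique_iff (G : SimpleGraph (Fin n)) (S : Finset (Fin n)) :
    (∀ e ∈ prs S, e ∈ G.edgeSet) ↔ G.IsClique S := by
  constructor
  · intro h a ha b hb hab
    rw [← SimpleGraph.mem_edgeSet]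
    apply h
    rw [prs, mem_toList, mem_filter, mk_mem_sym2_iff]
    exact ⟨⟨ha, hb⟩, by simpa using hab⟩
  · intro h e he
    rw [prs, mem_toList, mem_filter] at he
    induction e with
    | _ a b =>
      rw [mk_mem_sym2_iff] at he
      rw [SimpleGraph.mem_edgeSet]
      exact h he.1.1 he.1.2 (by simpa using he.2)

theorem length_prs {k : ℕ} (hk : 1 ≤ k) (S : Finset (Fin n)) (hS : S.card = k) :
    (prs S).length ≤ k ^ 2 := by
  rw [prs, length_toList]
  refine (card_filter_le _ _).trans ?_
  rw [card_sym2, hS, Nat.choose_two_right]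
  refine Nat.div_le_of_le_mul ?_
  simp only [Nat.add_sub_cancel]
  nlinarith

/-- the possible cliques -/
noncomputable def cands (n k : ℕ) : List (List (Sym2 (Fin n))) :=
  ((univ : Finset (Fin n)).powersetCard k).toList.map prs

theorem sem {k : ℕ} {P : Know (Sym2 (Fin n))}
    (hP : ∃ G : SimpleGraph (Fin n), Le P (full (· ∈ G.edgeSet))) :
    disj (cands n k) P = known true ↔
      ∀ G : SimpleGraph (Fin n), Le P (full (· ∈ G.edgeSet)) → ¬ G.CliqueFree k := by
  rw [disj_true]
  constructor
  · rintro ⟨t, ht, hv⟩ G hG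
    rw [cands, List.mem_map] at ht
    obtain ⟨S, hS, rfl⟩ := ht
    rw [mem_toList, mem_powersetCard] at hS
    rw [conj_true] at hv
    intro hcf
    refine hcf S ⟨(clique_iff G S).1 fun e he => ?_, hS.2⟩
    have h1 := hv e he
    rcases hG e with h | h
    · rw [h1] at h; exact absurd h (by simp)
    · rw [h1] at h
      unfold full at h
      simpa using h
  · intro h
    let G : SimpleGraph (Fin n) := SimpleGraph.fromEdgeSet {e | P e = some true}
    have hmem : ∀ e, e ∈ G.edgeSet ↔ P e = some true ∧ ¬ e.IsDiag := by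
      intro e
      simp only [G, SimpleGraph.edgeSet_fromEdgeSet]
      simp
    obtain ⟨G₀, hG₀⟩ := hP
    have hdiag : ∀ e, P e = some true → ¬ e.IsDiag := by
      intro e he hd
      rcases hG₀ e with h1 | h1
      · rw [he] at h1; exact absurd h1 (by simp)
      · rw [he] at h1
        unfold full at h1
        have h2 : e ∈ G₀.edgeSet := by simpa using h1
        exact G₀.not_isDiag_of_mem_edgeSet h2 hd
    have hle : Le P (full (· ∈ G.edgeSet)) := by
      intro e
      rcases he : P e with _ | (_ | _)
      · exact Or.inl rfl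
      · right
        unfold full
        have : e ∉ G.edgeSet := by rw [hmem, he]; simp
        simp [this]
      · right
        unfold full
        have : e ∈ G.edgeSet := by rw [hmem]; exact ⟨he, hdiag e he⟩
        simp [this]
    have h2 := h G hle
    unfold SimpleGraph.CliqueFree at h2
    push Not at h2
    obtain ⟨S, hS⟩ := h2
    refine ⟨prs S, ?_, ?_⟩
    · rw [cands, List.mem_map]
      exact ⟨S, by rw [mem_toList, mem_powersetCard]; exact ⟨subset_univ _, hS.2⟩, rfl⟩
    · rw [conj_true]
      intro e he
      exact ((hmem e).1 ((clique_iff G S).2 hS.1 e he)).1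

/-- brute force -/
theorem upperM (d : ℕ) {k : ℕ} (hn : 2 ≤ n) (hk : 2 ≤ k) :
    ∃ R : KReduction n 0 d 1 (Flat Bool), R.l.length ≤ 2 * k ^ 2 * n ^ k ∧ (∀ b, R.ev b = b 0) ∧
      (∀ P : Know (Sym2 (Fin n)), (∃ G : SimpleGraph (Fin n), Le P (full (· ∈ G.edgeSet))) →
        (R.answer P = true ↔
          ∀ G : SimpleGraph (Fin n), Le P (full (· ∈ G.edgeSet)) → ¬ G.CliqueFree k)) ∧
      Distinguishes k k fun (_ : Unit) P => R.answer P := by
  obtain ⟨l0, a1, a2, a3⟩ := exists_inputs (n := n) (univ : Finset (Sym2 (Fin n))).toList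
  have b1 : Circ ((fun _ : Know (Sym2 (Fin n)) => known true) ::
      (fun _ : Know (Sym2 (Fin n)) => known false) :: l0) := Circ.const _ (Circ.const _ a1)
  obtain ⟨l, c1, c2, c3, c4⟩ := exists_disj b1 List.mem_cons_self
    (List.mem_cons_of_mem _ List.mem_cons_self)
    (fun e => List.mem_cons_of_mem _ (List.mem_cons_of_mem _ (a3 e (by simp))))
    (M := k ^ 2) (cands n k) (by
      intro t ht
      rw [cands, List.mem_map] at ht
      obtain ⟨S, hS, rfl⟩ := ht
      rw [mem_toList, mem_powersetCard] at hS
      exact length_prs (by omega) S hS.2)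
  have hlen : l.length ≤ 2 * k ^ 2 * n ^ k := by
    have h1 : (cands n k).length ≤ n ^ k := by
      rw [cands, List.length_map, length_toList, card_powersetCard, card_univ, Fintype.card_fin]
      exact Nat.choose_le_pow _ _
    have h2 : ((univ : Finset (Sym2 (Fin n))).toList).length ≤ n ^ 2 := by
      rw [length_toList, card_univ, Sym2.card, Fintype.card_fin, Nat.choose_two_right]
      refine (Nat.div_le_div_right (c := 2) (show (n + 1) * (n + 1 - 1) ≤ 2 * n ^ 2 from ?_)).trans
        (by omega)
      simp only [Nat.add_sub_cancel]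
      nlinarith
    rw [List.length_cons, List.length_cons, a2] at c3
    have h3 : n ^ 2 ≤ n ^ k := Nat.pow_le_pow_right (by omega) hk
    have h4 : 2 ≤ n ^ k := by nlinarith
    have h5 : (cands n k).length * (k ^ 2 + 1) ≤ n ^ k * (k ^ 2 + 1) :=
      Nat.mul_le_mul_right _ h1
    have h6 : 3 * n ^ k ≤ k ^ 2 * n ^ k := Nat.mul_le_mul_right _ (by nlinarith)
    nlinarith
  have hval : ∀ P : Know (Sym2 (Fin n)),
      (decide (Sat fun _ : Clause 0 d => decide (disj (cands n k) P ∉ ({known true} : Set _))) =
        true ↔ disj (cands n k) P = known true) := by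
    intro P
    rw [decide_eq_true_eq]
    constructor
    · rintro ⟨a, ha⟩
      by_contra hcon
      obtain ⟨x, -, -⟩ := ha ⟨∅, by simp⟩ (by simpa using hcon)
      exact x.1.elim0
    · intro h
      refine ⟨Fin.elim0, fun c hc => ?_⟩
      rw [decide_eq_true_eq] at hc
      exact absurd h hc
  let R : KReduction n 0 d 1 (Flat Bool) :=
    { l := l
      circ := c1
      drop := fun _ _ => disj (cands n k)
      drop_mem := fun _ _ => c4
      acc := fun _ _ => {known true}
      acc_upper := by
        intro _ _ x y hxy hx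
        rw [Set.mem_singleton_iff] at hx ⊢
        rw [hx, Flat.le_iff] at hxy
        rcases hxy with h | h
        · exact absurd h (by simp)
        · exact h.symm
      ev := fun b => b 0
      ev_mono := fun b b' h => h 0 }
  have hsem : ∀ P : Know (Sym2 (Fin n)),
      (∃ G : SimpleGraph (Fin n), Le P (full (· ∈ G.edgeSet))) →
        (R.answer P = true ↔
          ∀ G : SimpleGraph (Fin n), Le P (full (· ∈ G.edgeSet)) → ¬ G.CliqueFree k) :=
    fun P hP => (hval P).trans (sem hP)
  refine ⟨R, hlen, fun b => rfl, hsem, fun G => ⟨fun h => ?_, fun h => ?_⟩⟩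
  · have h1 : R.answer (truths (· ∈ G.edgeSet)) = true := by
      rw [hsem _ ⟨G, truths_le_full _⟩]
      intro G' hG' hcf
      refine h (hcf.anti ?_)
      intro a b hab
      rw [← SimpleGraph.mem_edgeSet] at hab ⊢
      rcases hG' s(a, b) with h2 | h2
      · unfold truths at h2
        simp [hab] at h2
      · unfold truths full at h2
        simpa [hab] using h2
    have e1 : Nat.card {_r : Unit // R.answer (truths (· ∈ G.edgeSet)) = true} = 1 := by
      rw [Nat.card_eq_one_iff_unique]
      exact ⟨⟨fun a b => Subtype.ext rfl⟩, ⟨⟨(), h1⟩⟩⟩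
    rw [e1]
    norm_num
  · have h1 : R.answer (full (· ∈ G.edgeSet)) ≠ true := by
      intro hcon
      exact (hsem _ ⟨G, fun e => Or.inr rfl⟩).1 hcon G (fun e => Or.inr rfl) h
    have e1 : Nat.card {_r : Unit // R.answer (full (· ∈ G.edgeSet)) = true} = 0 := by
      rw [Nat.card_eq_zero]
      exact Or.inl ⟨fun r => h1 r.2⟩
    rw [e1]
    norm_num

end Pool.Agent.H660.UM
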